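import Pool.Agent.X193.CMT.Main

namespace Pool.Agent.Results.MP_05142a_co.MixingThresholdRational

open X193.CMT

theorem good_up {V : Type} (G : SimpleGraph V) {x : ℝ} (hx : x ∈ Good G) {l : ℚ} (hl : x ≤ l) :
    (l : ℝ) ∈ Good G := by
  obtain ⟨l', rfl, h⟩ := hx
  refine ⟨l, rfl, ?_⟩
  intro k q hk hq hle
  exact h k q hk hq (le_trans (by exact_mod_cast hl) hle)

theorem cutoff {V : Type} [Fintype V] (G : SimpleGraph V) (c : ℚ) :
    ∃ ρ : ℚ, IsGLB (Good G ∩ Set.Ici (c : ℝ)) (ρ : ℝ) := by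
  rcases main_thm G with ⟨a, b, _, _, _, hM⟩ | hall
  · refine ⟨max c ((a : ℚ) / b), ?_⟩
    have e : ((max c ((a : ℚ) / b) : ℚ) : ℝ) = max (c : ℝ) ((a : ℝ) / b) := by
      push_cast
      rfl
    rw [e]
    constructor
    · rintro y ⟨hy1, hy2⟩
      exact max_le hy2 (hM.1 hy1)
    · intro y hy
      by_contra hcon
      push Not at hcon
      obtain ⟨l, hl1, hl2⟩ := exists_rat_btwn hcon
      rw [max_lt_iff] at hl1
      have hex : ∃ g ∈ Good G, g < (l : ℝ) := by
        by_contra h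
        push Not at h
        have := hM.2 h
        linarith
      obtain ⟨g, hg, hgl⟩ := hex
      have := hy ⟨good_up G hg hgl.le, hl1.1.le⟩
      linarith
  · refine ⟨c, ?_⟩
    have hg : ∀ l : ℚ, (l : ℝ) ∈ Good G := fun l => ⟨l, rfl, fun k q hk hq _ => hall k q hk hq⟩
    constructor
    · rintro y ⟨_, hy2⟩
      exact hy2
    · intro y hy
      exact hy ⟨hg c, Set.mem_Ici.mpr (le_refl (c : ℝ))⟩

/-- The circular mixing threshold of a finite simple graph `G` on `n` vertices is a rational number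
`a / b` with `a, b ≤ 2 n + 3`, unless `G` is `(k, q)`-mixing for all pairs `(k, q)` (when the
infimum is over all rationals); and for every rational `c` the infimum over the rationals `l ≥ c` is
rational. -/
theorem result : ∀ (V : Type) [Fintype V] (G : SimpleGraph V),
    ((∃ a b : ℕ, 0 < b ∧ b ≤ 2 * Fintype.card V + 3 ∧ a ≤ 2 * Fintype.card V + 3 ∧
        IsGLB (Good G) ((a : ℝ) / b)) ∨
      (∀ k q : ℕ, 0 < k → 0 < q → Mixing G k q)) ∧
    (∀ c : ℚ, ∃ ρ : ℚ, IsGLB (Good G ∩ Set.Ici (c : ℝ)) (ρ : ℝ)) :=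
  fun _ _ G => ⟨main_thm G, cutoff G⟩

end Pool.Agent.Results.MP_05142a_co.MixingThresholdRational
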